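import Pool.Agent.H46.CH.DL

/-!
# The matching of the stages
-/

set_option autoImplicit false

namespace Pool.Agent.H38.CHD

open Classical
open Pool.Agent.H46.CH

section
variable {J : Type} [Fintype J]

/-- the conditions on one side do not use `R 2` -/
theorem outs_irr (M : BM J) (i : M.I) (sd : Bool) (κ : Option J) (p) (hp : p ∈ M.outs i sd κ)
    (l' : M.Lb) (a b a' b' : Fin 3 → Prop) (h1 : a 1 = a' 1) : p.1 l' a b = p.1 l' a' b' := by
  unfold BM.outs at hp
  by_cases hd : M.dir i = true
  · rw [if_pos hd, List.mem_cons] at hp
    rcases hp with rfl | hp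
    · simp only [h1]
    · obtain ⟨j, -, rfl⟩ := List.mem_map.1 hp
      simp only [h1]
  · rw [if_neg hd, List.mem_singleton] at hp
    subst hp
    simp only [h1]

/-- the conditions without the matching do not use `R 2` -/
theorem lc_irr (M : BM J) (l : M.Lb) (p) (hp : p ∈ M.lc.ct l) (l' : M.Lb)
    (a b a' b' : Fin 3 → Prop) (h0 : a 0 = a' 0) (h1 : a 1 = a' 1) (h2 : b 0 = b' 0)
    (h3 : b 1 = b' 1) : p.1 l' a b = p.1 l' a' b' := by
  simp only [BM.lc, List.mem_append, List.mem_cons, List.not_mem_nil, or_false] at hp
  rcases hp with ((rfl | rfl | rfl | rfl) | hp) | hp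
  · simp only [h0, h2]
  · simp only [h0, h2]
  · simp only [h0, h2]
  · simp only [h0, h2]
  · unfold BM.outc at hp
    split at hp
    · rw [List.mem_singleton] at hp
      subst hp
      exact h1
    · rename_i i hi
      rw [List.mem_append] at hp
      rcases hp with hp | hp
      · exact outs_irr M i false _ p hp l' a b a' b' h1
      · by_cases hr : M.ar i = true
        · rw [if_pos hr] at hp
          exact outs_irr M i true _ p hp l' a b a' b' h1
        · rw [if_neg hr] at hp
          exact absurd hp List.not_mem_nil
  · unfold BM.inc at hp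
    split at hp
    · rw [List.mem_singleton] at hp
      subst hp
      exact h3
    · rename_i i hi
      by_cases hd : M.dir i.1 = true
      · rw [if_pos hd, List.mem_singleton] at hp
        subst hp
        exact h3
      · rw [if_neg hd, List.mem_cons] at hp
        rcases hp with rfl | hp
        · simp only [h3]
        · obtain ⟨j, -, rfl⟩ := List.mem_map.1 hp
          simp only [h3]

/-- a partial matching gives an inequality -/
theorem ncard_le_of {A : Type} [Finite A] (F G : Set A) (r : A → A → Prop)
    (h1 : ∀ x ∈ F, {y | y ≠ x ∧ r x y}.ncard = 1)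
    (h2 : ∀ y ∈ G, {x | x ≠ y ∧ r x y}.ncard = 1)
    (h3 : ∀ x y, x ≠ y → r x y → y ∈ G) : F.ncard ≤ G.ncard := by
  have hc : ∀ x, ∃ y, x ∈ F → y ≠ x ∧ r x y := by
    intro x
    by_cases hx : x ∈ F
    · obtain ⟨y, hy⟩ := Set.ncard_eq_one.1 (h1 x hx)
      have : y ∈ {y | y ≠ x ∧ r x y} := by rw [hy]; rfl
      exact ⟨y, fun _ => this⟩
    · exact ⟨x, fun h => absurd h hx⟩
  choose f hf using hc
  refine Set.ncard_le_ncard_of_injOn f ?_ ?_ (Set.toFinite _)
  · intro x hx
    exact h3 x (f x) (fun h => (hf x hx).1 h.symm) (hf x hx).2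
  · intro x hx x' hx' he
    have hy : f x ∈ G := h3 x (f x) (fun h => (hf x hx).1 h.symm) (hf x hx).2
    obtain ⟨z, hz⟩ := Set.ncard_eq_one.1 (h2 _ hy)
    have e1 : x ∈ {x' | x' ≠ f x ∧ r x' (f x)} := ⟨fun h => (hf x hx).1 h.symm, (hf x hx).2⟩
    have e2 : x' ∈ {x' | x' ≠ f x ∧ r x' (f x)} :=
      ⟨fun h => (hf x' hx').1 (by rw [← he]; exact h.symm), by
        have := (hf x' hx').2
        rw [← he] at this
        exact this⟩
    rw [hz] at e1 e2
    exact e1.trans e2.symm

/-- the matching of the stages -/
theorem pf_TMT : T_TMT := by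
  intro J _ M A _ R lab
  constructor
  · rintro ⟨hok, hpr, hct⟩
    refine ⟨⟨hok, fun x y h => (hpr x y h).1, fun x p hp => hct x p
      (List.mem_append_right _ hp)⟩, ?_⟩
    have a1 : ∀ x, {y | y ≠ x ∧ R 2 x y}.ncard = if M.stl (lab x) = true then 0 else 1 := by
      intro x
      have := hct x (fun _ a _ => a 2, if M.stl (lab x) = true then 0 else 1, true)
        (List.mem_append_left _ (List.mem_cons_self ..))
      simp only [if_true] at this
      exact this
    have a2 : ∀ x, {y | y ≠ x ∧ R 2 y x}.ncard = if M.stl (lab x) = true then 1 else 0 := by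
      intro x
      have := hct x (fun _ _ b => b 2, if M.stl (lab x) = true then 1 else 0, true)
        (List.mem_append_left _ (List.mem_cons_of_mem _ (List.mem_cons_self ..)))
      simp only [if_true] at this
      exact this
    have a3 : ∀ x y, x ≠ y → R 2 x y → M.stl (lab x) = false ∧ M.stl (lab y) = true :=
      fun x y h h' => (hpr x y h).2 h'
    refine le_antisymm ?_ ?_
    · refine ncard_le_of _ _ (R 2) ?_ ?_ ?_
      · intro x hx
        rw [a1 x, if_neg]
        rw [Set.mem_ofPred_eq] at hx
        rw [hx]
        decide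
      · intro y hy
        rw [a2 y]
        exact if_pos hy
      · intro x y h h'
        exact (a3 x y h h').2
    · refine ncard_le_of _ _ (fun x y => R 2 y x) ?_ ?_ ?_
      · intro x hx
        rw [a2 x]
        exact if_pos hx
      · intro y hy
        rw [a1 y, if_neg]
        rw [Set.mem_ofPred_eq] at hy
        rw [hy]
        decide
      · intro x y h h'
        exact (a3 y x h.symm h').1
  · rintro ⟨hok, hpr, hct⟩ hn
    obtain ⟨f⟩ : Nonempty ({x | M.stl (lab x) = false} ≃ {x | M.stl (lab x) = true}) :=
      Finite.card_eq.1 (by rwa [Nat.card_coe_set_eq, Nat.card_coe_set_eq])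
    refine ⟨fun i x y => if i = 2 then ∃ h : M.stl (lab x) = false, (f ⟨x, h⟩ : A) = y
      else R i x y, ?_, hok, ?_, ?_⟩
    · funext x y
      exact if_neg (by decide)
    · intro x y h
      refine ⟨?_, ?_⟩
      · have := hpr x y h
        exact this
      · rintro ⟨h1, h2⟩
        refine ⟨h1, ?_⟩
        rw [← h2]
        exact (f ⟨x, h1⟩).2
    · intro x p hp
      have hp' : p ∈ [((fun _ a _ => a 2, if M.stl (lab x) = true then 0 else 1, true) :
          (M.Lb → (Fin 3 → Prop) → (Fin 3 → Prop) → Prop) × ℕ × Bool),
          (fun _ _ b => b 2, if M.stl (lab x) = true then 1 else 0, true)] ++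
            M.lc.ct (lab x) := hp
      rw [List.mem_append, List.mem_cons, List.mem_singleton] at hp'
      rcases hp' with (rfl | rfl) | hp'
      · simp only [if_true]
        unfold pn
        by_cases hx : M.stl (lab x) = true
        · rw [if_pos hx, Set.ncard_eq_zero]
          ext y
          simp only [Set.mem_ofPred_eq, Set.mem_empty_iff_false, iff_false, not_and]
          rintro - ⟨h1, -⟩
          rw [hx] at h1
          exact absurd h1 (by decide)
        · rw [if_neg hx, Set.ncard_eq_one]
          have hx' : M.stl (lab x) = false := by simpa using hx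
          refine ⟨(f ⟨x, hx'⟩ : A), ?_⟩
          ext y
          simp only [Set.mem_ofPred_eq, Set.mem_singleton_iff]
          constructor
          · rintro ⟨-, h1, h2⟩
            exact h2.symm
          · intro h
            refine ⟨?_, hx', h.symm⟩
            intro hyx
            have h5 := (f ⟨x, hx'⟩).2
            rw [Set.mem_ofPred_eq, ← h, hyx] at h5
            exact hx h5
      · simp only [if_true]
        unfold pn
        by_cases hx : M.stl (lab x) = true
        · rw [if_pos hx, Set.ncard_eq_one]
          refine ⟨(f.symm ⟨x, hx⟩ : A), ?_⟩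
          ext y
          simp only [Set.mem_ofPred_eq, Set.mem_singleton_iff]
          constructor
          · rintro ⟨-, h1, h2⟩
            have h3 : f ⟨y, h1⟩ = ⟨x, hx⟩ := Subtype.ext h2
            have h4 : f.symm ⟨x, hx⟩ = ⟨y, h1⟩ := by rw [← h3, Equiv.symm_apply_apply]
            rw [h4]
          · intro h
            have h5 : M.stl (lab (f.symm ⟨x, hx⟩ : A)) = false := (f.symm ⟨x, hx⟩).2
            refine ⟨?_, ?_⟩
            · intro hyx
              rw [← h, hyx, hx] at h5
              exact absurd h5 (by decide)
            · subst h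
              refine ⟨h5, ?_⟩
              have h6 : f (f.symm ⟨x, hx⟩) = ⟨x, hx⟩ := Equiv.apply_symm_apply ..
              exact congrArg Subtype.val h6
        · rw [if_neg hx, Set.ncard_eq_zero]
          ext y
          simp only [Set.mem_ofPred_eq, Set.mem_empty_iff_false, iff_false, not_and]
          rintro - ⟨h1, h2⟩
          apply hx
          rw [← h2]
          exact (f ⟨y, h1⟩).2
      · have h1 := hct x p hp'
        have h2 : pn lab (fun i x y => if i = 2 then ∃ h : M.stl (lab x) = false,
            (f ⟨x, h⟩ : A) = y else R i x y) p.1 x = pn lab R p.1 x := by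
          unfold pn
          congr 1
          ext y
          simp only [Set.mem_ofPred_eq]
          rw [lc_irr M (lab x) p hp' (lab y) _ _ (bt R x y) (bt R y x)]
          all_goals simp [bt]
        rw [h2]
        exact h1

end

end Pool.Agent.H38.CHD
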