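import Pool.Agent.H46.CH.DU

/-!
# Row TUM: upper bound with counting monadic second-order logic
-/

set_option autoImplicit false

namespace Pool.Agent.H38.CHD

open Classical Pool.Agent.H8.VR Pool.Agent.H69.VR Pool.Agent.H46.CH
open Pool.Agent.H8.JS (NTM Cfg Mv lang num)

theorem pf_TUM (hTUG : T_TUG) : T_TUM := by
  intro N Q _ _ G hT m s₀ Ψ φ hΨ
  rw [specM_eq N Q G m s₀ Ψ hΨ φ]
  have := MS.finT Q (Ψ.clo Ψ.vb)
  refine hTUG (Option (N × (Ψ.clo Ψ.vb).T Q)) Q (ext G s₀ (Ψ.clo Ψ.vb)) ?_ m none φ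
  intro y hy
  obtain ⟨o, ho, a, b, -, -, -, -, -, -, k, -⟩ := mem_ops.1 hy
  rw [k]
  exact hT o ho

end Pool.Agent.H38.CHD
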